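import Mathlib

set_option autoImplicit false

/-!
# MP_ca1982_an: a compact set that meets every line, with all iterated sumsets nowhere dense

There is a compact set `K ⊆ [0,1]²` that meets every line meeting `[0,1]²` and such that the
`ℓ`-fold sumset `K + ... + K` is nowhere dense for every `ℓ`. So a single set is an
`(ℓ, 1, 2)`-set for all `ℓ` at once.

Construction. The scales `k = 0, 1, 2, ...` are arranged in stages: stage `s` consists of the
`2 s + 1` scales `s² ≤ k < (s+1)²`, and the scale `k` of stage `s` has the direction number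
`j = k - s²`. The scale `k` is *good* for the point `(x, y)` if the distance of `M k (x + j y)` to
the integers is at most `1 / (4 (s + 1))`, where `M k` is a rapidly increasing sequence of integers.
`K` consists of the points of the square for which, in every stage, all scales but at most two are
good. A line crosses the strips of a scale quickly, unless it is nearly parallel to them, which
happens at most once in each stage, or its intersection with the square is too short; but then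
it lies near a vertex of the square, where the scale is good anyway, with the exception of one
intermediate scale. For a point of the `ℓ`-fold sumset at most `2 ℓ` scales of the stage `s` do not
satisfy the same condition with `ℓ / (4 (s + 1)) < 1 / 4`, and this is not the case on any open set.
-/

open Set Filter Topology

namespace Pool.Agent.Results.MP_ca1982_an.AllSumsetsNowhereDense

/-- The closed unit square. -/
def square : Set (ℝ × ℝ) := Set.Icc 0 1 ×ˢ Set.Icc 0 1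

/-- The `ℓ`-fold sumset. -/
def sumset (ℓ : ℕ) (K : Set (ℝ × ℝ)) : Set (ℝ × ℝ) :=
  {w | ∃ x : Fin ℓ → ℝ × ℝ, (∀ i, x i ∈ K) ∧ w = ∑ i, x i}

/-- the scales -/
def M : ℕ → ℕ
  | 0 => 2
  | k + 1 => (4 * k + 6) * (2 * k + 1) * (4 * k + 4) * M k

/-- the direction number of the scale `k` -/
def dj (k : ℕ) : ℕ := k - (Nat.sqrt k) ^ 2

/-- the linear form of the scale `k` -/
noncomputable def form (k : ℕ) (z : ℝ × ℝ) : ℝ := (M k : ℝ) * (z.1 + (dj k : ℝ) * z.2)

/-- the tolerance -/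
noncomputable def ep (k : ℕ) : ℝ := 1 / (4 * ((Nat.sqrt k : ℝ) + 1))

def Good (k : ℕ) (z : ℝ × ℝ) : Prop := ∃ n : ℤ, |form k z - n| ≤ ep k

/-- the set -/
def KK : Set (ℝ × ℝ) :=
  {z | z ∈ square ∧ ∀ s : ℕ, ∃ a b : ℕ, ∀ k ∈ Finset.Ico (s ^ 2) ((s + 1) ^ 2),
    k ≠ a → k ≠ b → Good k z}

theorem M_pos (k : ℕ) : 2 ≤ M k := by
  induction k with
  | zero => simp [M]
  | succ k ih =>
    rw [M]
    have : 1 ≤ (4 * k + 6) * (2 * k + 1) * (4 * k + 4) := Nat.succ_le_of_lt (by positivity)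
    nlinarith

theorem M_posR (k : ℕ) : (2 : ℝ) ≤ M k := by exact_mod_cast M_pos k

theorem ep_pos (k : ℕ) : 0 < ep k := by unfold ep; positivity

theorem sqrt_le_self' (k : ℕ) : Nat.sqrt k ≤ k := Nat.sqrt_le_self k

theorem dj_le (k : ℕ) : dj k ≤ 2 * Nat.sqrt k := by
  unfold dj
  have := Nat.sqrt_le_add k
  have h2 : (Nat.sqrt k) ^ 2 = Nat.sqrt k * Nat.sqrt k := sq _
  omega

/-- the length of the intervals -/
noncomputable def rh (k : ℕ) : ℝ := ep k / ((M k : ℝ) * (1 + 2 * (Nat.sqrt k : ℝ)))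

/-- the lower bound for the slopes -/
noncomputable def cc (k : ℕ) : ℝ := 1 / (4 * (Nat.sqrt k : ℝ) + 2)

theorem rh_pos (k : ℕ) : 0 < rh k := by
  unfold rh
  have := ep_pos k
  have := M_posR k
  positivity

theorem cc_pos (k : ℕ) : 0 < cc k := by unfold cc; positivity

theorem M_cc (k : ℕ) : 1 ≤ (M k : ℝ) * cc k := by
  unfold cc
  rw [mul_one_div, le_div_iff₀ (by positivity), one_mul]
  cases k with
  | zero => simp [M]
  | succ k =>
    rw [M]
    push_cast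
    have h1 : (Nat.sqrt (k+1) : ℝ) ≤ k + 1 := by exact_mod_cast Nat.sqrt_le_self (k+1)
    have h2 := M_posR k
    have h3 : (0:ℝ) ≤ k := Nat.cast_nonneg k
    have h4 : (4 * (k:ℝ) + 6) * 1 * 1 * 1 ≤ (4 * (k:ℝ) + 6) * (2 * k + 1) * (4 * k + 4) * M k := by
      gcongr
      · linarith
      · linarith
      · linarith
    linarith

theorem grow (k : ℕ) : 1 ≤ (M (k+1) : ℝ) * cc (k+1) * rh k := by
  unfold cc rh ep
  have h2 := M_posR k
  have h3 : (0:ℝ) ≤ k := Nat.cast_nonneg k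
  have h1 : (Nat.sqrt (k+1) : ℝ) ≤ k + 1 := by exact_mod_cast Nat.sqrt_le_self (k+1)
  have h4 : (Nat.sqrt k : ℝ) ≤ k := by exact_mod_cast Nat.sqrt_le_self k
  rw [M]
  push_cast
  rw [mul_one_div, div_div, div_mul_div_comm, le_div_iff₀ (by positivity), one_mul, mul_one]
  calc (4 * (Nat.sqrt (k+1) : ℝ) + 2) * (4 * ((Nat.sqrt k : ℝ) + 1) * ((M k : ℝ) * (1 + 2 * (Nat.sqrt k : ℝ))))
      ≤ (4 * ((k:ℝ) + 1) + 2) * (4 * ((k:ℝ) + 1) * ((M k : ℝ) * (1 + 2 * (k:ℝ)))) := by gcongr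
    _ = (4 * (k:ℝ) + 6) * (2 * k + 1) * (4 * k + 4) * M k := by ring

theorem rh_lt_one (k : ℕ) : rh k < 1 := by
  have h1 := grow k
  have h2 := M_posR k
  unfold rh ep
  rw [div_div, div_lt_one (by positivity)]
  have : (0:ℝ) ≤ Nat.sqrt k := Nat.cast_nonneg _
  nlinarith [mul_nonneg this this]

theorem rh_anti_succ (k : ℕ) : rh (k+1) ≤ rh k := by
  have h1 := grow k
  have h2 := M_cc (k+1)
  have h3 := rh_pos k
  -- rh (k+1) ≤ 1 / (M (k+1) * cc (k+1)) ≤ rh k
  have h5 : rh (k+1) ≤ 1 / ((M (k+1) : ℝ) * cc (k+1)) := by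
    unfold rh ep cc
    have h2 := M_posR (k+1)
    rw [div_div, mul_one_div, one_div_div, div_le_div_iff₀ (by positivity) (by positivity), one_mul]
    have : (0:ℝ) ≤ Nat.sqrt (k+1) := Nat.cast_nonneg _
    have h6 : (1:ℝ) ≤ (4 * (Nat.sqrt (k+1) : ℝ) + 2) * (4 * ((Nat.sqrt (k+1) : ℝ) + 1) * (1 + 2 * (Nat.sqrt (k+1) : ℝ))) := by
      have e1 : (1:ℝ) ≤ 4 * (Nat.sqrt (k+1) : ℝ) + 2 := by linarith
      have e2 : (1:ℝ) ≤ 4 * ((Nat.sqrt (k+1) : ℝ) + 1) := by linarith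
      have e3 : (1:ℝ) ≤ 1 + 2 * (Nat.sqrt (k+1) : ℝ) := by linarith
      calc (1:ℝ) = 1 * (1 * 1) := by ring
        _ ≤ _ := by gcongr
    nlinarith
  refine h5.trans ?_
  rw [div_le_iff₀ (by have := cc_pos (k+1); positivity)]
  linarith

theorem rh_anti {k l : ℕ} (h : k ≤ l) : rh l ≤ rh k :=
  antitone_nat_of_succ_le rh_anti_succ h

/-- a linear function whose total variation on an interval is at least one takes a value in
`ℤ + θ` -/
theorem hit {lam kap α β : ℝ} (θ : ℝ) (hαβ : α ≤ β) (h : 1 ≤ |lam| * (β - α)) :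
    ∃ t ∈ Set.Icc α β, ∃ n : ℤ, lam * t + kap = n + θ := by
  have hlam : lam ≠ 0 := by
    rintro rfl
    simp at h
    linarith
  have hd : (1:ℝ) ≤ |(lam * β + kap) - (lam * α + kap)| := by
    have : (lam * β + kap) - (lam * α + kap) = lam * (β - α) := by ring
    rw [this, abs_mul, abs_of_nonneg (sub_nonneg.2 hαβ)]
    exact h
  -- the integer
  have key : ∃ n : ℤ, (n : ℝ) + θ ∈ Set.uIcc (lam * α + kap) (lam * β + kap) := by
    rcases le_total (lam * α + kap) (lam * β + kap) with hle | hle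
    · rw [abs_of_nonneg (by linarith)] at hd
      refine ⟨⌈lam * α + kap - θ⌉, ?_⟩
      rw [Set.uIcc_of_le hle]
      have e1 := Int.le_ceil (lam * α + kap - θ)
      have e2 := Int.ceil_lt_add_one (lam * α + kap - θ)
      constructor <;> linarith
    · rw [abs_of_nonpos (by linarith)] at hd
      refine ⟨⌈lam * β + kap - θ⌉, ?_⟩
      rw [Set.uIcc_of_ge hle]
      have e1 := Int.le_ceil (lam * β + kap - θ)
      have e2 := Int.ceil_lt_add_one (lam * β + kap - θ)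
      constructor <;> linarith
  obtain ⟨n, hn⟩ := key
  have hc : ContinuousOn (fun t : ℝ => lam * t + kap) (Set.uIcc α β) := by fun_prop
  obtain ⟨t, ht, hte⟩ := intermediate_value_uIcc hc hn
  rw [Set.uIcc_of_le hαβ] at ht
  exact ⟨t, ht, n, hte⟩

theorem subint {α β t r : ℝ} (ht : t ∈ Set.Icc α β) (hr0 : 0 ≤ r) (hr : r ≤ β - α) :
    ∃ α' β' : ℝ, α ≤ α' ∧ β' ≤ β ∧ α' ≤ β' ∧ β' - α' = r ∧ t ∈ Set.Icc α' β' := by
  rcases le_total (t + r) β with h | h
  · exact ⟨t, t + r, ht.1, h, by linarith, by ring, le_refl _, by linarith⟩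
  · exact ⟨β - r, β, by linarith, le_refl _, by linarith, by ring, by linarith, ht.2⟩

theorem mem_square {z : ℝ × ℝ} : z ∈ square ↔ (0 ≤ z.1 ∧ z.1 ≤ 1) ∧ (0 ≤ z.2 ∧ z.2 ≤ 1) := by
  simp only [square, Set.mem_prod, Set.mem_Icc]

theorem form_line (k : ℕ) (p u : ℝ × ℝ) (t : ℝ) :
    form k (p.1 + t * u.1, p.2 + t * u.2) =
      ((M k : ℝ) * (u.1 + (dj k : ℝ) * u.2)) * t + form k p := by
  unfold form
  ring

theorem dj_leR (k : ℕ) : (dj k : ℝ) ≤ 2 * (Nat.sqrt k : ℝ) := by exact_mod_cast dj_le k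

theorem slope_le {u : ℝ × ℝ} (h1 : |u.1| ≤ 1) (h2 : |u.2| ≤ 1) (k : ℕ) :
    |u.1 + (dj k : ℝ) * u.2| ≤ 1 + 2 * (Nat.sqrt k : ℝ) := by
  have hd := dj_leR k
  have hd0 : (0:ℝ) ≤ dj k := Nat.cast_nonneg _
  calc |u.1 + (dj k : ℝ) * u.2| ≤ |u.1| + |(dj k : ℝ) * u.2| := abs_add_le _ _
    _ = |u.1| + (dj k : ℝ) * |u.2| := by rw [abs_mul, abs_of_nonneg hd0]
    _ ≤ 1 + (2 * (Nat.sqrt k : ℝ)) * 1 := by gcongr
    _ = _ := by ring

/-- the vertices are good at every scale, and so are the points near them -/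
theorem good_near_vertex {k : ℕ} {z : ℝ × ℝ} {a b : ℤ} (h1 : |z.1 - a| ≤ rh k)
    (h2 : |z.2 - b| ≤ rh k) : Good k z := by
  refine ⟨(M k : ℤ) * (a + (dj k : ℤ) * b), ?_⟩
  have hM := M_posR k
  have hd := dj_leR k
  have hd0 : (0:ℝ) ≤ dj k := Nat.cast_nonneg _
  have e : form k z - ((((M k : ℤ) * (a + (dj k : ℤ) * b) : ℤ)) : ℝ) =
      (M k : ℝ) * ((z.1 - a) + (dj k : ℝ) * (z.2 - b)) := by
    unfold form
    push_cast
    ring
  rw [e, abs_mul, abs_of_pos (by linarith : (0:ℝ) < M k)]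
  have h3 : |(z.1 - a) + (dj k : ℝ) * (z.2 - b)| ≤ (1 + 2 * (Nat.sqrt k : ℝ)) * rh k := by
    calc |(z.1 - a) + (dj k : ℝ) * (z.2 - b)| ≤ |z.1 - a| + |(dj k : ℝ) * (z.2 - b)| := abs_add_le _ _
      _ = |z.1 - a| + (dj k : ℝ) * |z.2 - b| := by rw [abs_mul, abs_of_nonneg hd0]
      _ ≤ rh k + (2 * (Nat.sqrt k : ℝ)) * rh k := by gcongr
      _ = _ := by ring
  calc (M k : ℝ) * |(z.1 - a) + (dj k : ℝ) * (z.2 - b)| ≤ (M k : ℝ) * ((1 + 2 * (Nat.sqrt k : ℝ)) * rh k) := by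
        gcongr
    _ = ep k := by
        unfold rh
        have : (0:ℝ) ≤ Nat.sqrt k := Nat.cast_nonneg _
        field_simp

/-- the induction along the scales: `X` is the set of exempt scales -/
theorem nest {p u : ℝ × ℝ} {δ : ℝ} (hδ0 : 0 ≤ δ) (hδ1 : δ ≤ 1) (h1 : |u.1| ≤ 1) (h2 : |u.2| ≤ 1)
    (X : Set ℕ)
    (hX : ∀ k, k ∉ X → δ < 1 / ((M k : ℝ) * cc k) → ∀ t ∈ Set.Icc 0 δ, Good k (p.1 + t * u.1, p.2 + t * u.2))
    (hX2 : ∀ k, k ∉ X → 1 / ((M k : ℝ) * cc k) ≤ δ → cc k ≤ |u.1 + (dj k : ℝ) * u.2|) (k : ℕ) :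
    ∃ α β : ℝ, 0 ≤ α ∧ α ≤ β ∧ β ≤ δ ∧ min δ (rh k) ≤ β - α ∧
      ∀ t ∈ Set.Icc α β, ∀ l ≤ k, l ∉ X → Good l (p.1 + t * u.1, p.2 + t * u.2) := by
  -- the step
  have step : ∀ (k : ℕ) (α β r : ℝ), 0 ≤ α → α ≤ β → β ≤ δ → min δ r ≤ β - α → rh k ≤ r →
      1 ≤ (M k : ℝ) * cc k * r →
      ∃ α' β' : ℝ, α ≤ α' ∧ α' ≤ β' ∧ β' ≤ β ∧ min δ (rh k) ≤ β' - α' ∧
        ∀ t ∈ Set.Icc α' β', k ∉ X → Good k (p.1 + t * u.1, p.2 + t * u.2) := by
    intro k α β r hα hαβ hβ hmin hrh hgr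
    have hkeep : min δ (rh k) ≤ β - α := le_trans (min_le_min_left _ hrh) hmin
    by_cases hkX : k ∈ X
    · exact ⟨α, β, le_refl _, hαβ, le_refl _, hkeep, fun t _ h => absurd hkX h⟩
    · rcases lt_or_ge δ (1 / ((M k : ℝ) * cc k)) with hlt | hge
      · exact ⟨α, β, le_refl _, hαβ, le_refl _, hkeep, fun t ht _ =>
          hX k hkX hlt t ⟨hα.trans ht.1, ht.2.trans hβ⟩⟩
      · have hcc := hX2 k hkX hge
        have hM := M_posR k
        have hMpos : (0:ℝ) < M k := by linarith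
        have hccp := cc_pos k
        have hge' : 1 ≤ (M k : ℝ) * cc k * δ := by
          rw [div_le_iff₀ (by positivity)] at hge
          linarith
        have hmin' : 1 ≤ (M k : ℝ) * cc k * (β - α) := by
          rcases le_total δ r with h | h
          · rw [min_eq_left h] at hmin
            have : (M k : ℝ) * cc k * δ ≤ (M k : ℝ) * cc k * (β - α) := by gcongr
            linarith
          · rw [min_eq_right h] at hmin
            have : (M k : ℝ) * cc k * r ≤ (M k : ℝ) * cc k * (β - α) := by gcongr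
            linarith
        have hsl : 1 ≤ |(M k : ℝ) * (u.1 + (dj k : ℝ) * u.2)| * (β - α) := by
          rw [abs_mul, abs_of_pos hMpos]
          have h0 : 0 ≤ β - α := by linarith
          have : (M k : ℝ) * cc k * (β - α) ≤ (M k : ℝ) * |u.1 + (dj k : ℝ) * u.2| * (β - α) := by gcongr
          linarith
        obtain ⟨t, ht, n, hn⟩ := hit (kap := form k p) 0 hαβ hsl
        -- length
        have hle : min δ (rh k) ≤ β - α := hkeep
        have hm0 : 0 ≤ min δ (rh k) := le_min hδ0 (rh_pos k).le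
        obtain ⟨α', β', e1, e2, e3, e4, e5⟩ := subint ht hm0 hle
        refine ⟨α', β', e1, e3, e2, e4.ge, ?_⟩
        intro t' ht' _
        refine ⟨n, ?_⟩
        rw [form_line]
        have hn' : ((M k : ℝ) * (u.1 + (dj k : ℝ) * u.2)) * t' + form k p - n =
            ((M k : ℝ) * (u.1 + (dj k : ℝ) * u.2)) * (t' - t) := by
          have : (n : ℝ) = ((M k : ℝ) * (u.1 + (dj k : ℝ) * u.2)) * t + form k p := by
            rw [hn]; ring
          rw [this]; ring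
        rw [hn', abs_mul, abs_mul, abs_of_pos hMpos]
        have ht't : |t' - t| ≤ rh k := by
          have a1 := ht'.1
          have a2 := ht'.2
          have a3 := e5.1
          have a4 := e5.2
          have a5 : min δ (rh k) ≤ rh k := min_le_right _ _
          rw [abs_le]
          constructor <;> linarith
        have hs := slope_le h1 h2 k
        calc (M k : ℝ) * |u.1 + (dj k : ℝ) * u.2| * |t' - t|
            ≤ (M k : ℝ) * (1 + 2 * (Nat.sqrt k : ℝ)) * rh k := by gcongr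
          _ = ep k := by
              unfold rh
              have : (0:ℝ) ≤ Nat.sqrt k := Nat.cast_nonneg _
              field_simp
  induction k with
  | zero =>
    obtain ⟨α', β', e1, e2, e3, e4, e5⟩ := step 0 0 δ 1 (le_refl _) hδ0 (le_refl _)
      (by rw [min_eq_left hδ1, sub_zero]) (rh_lt_one 0).le (by have := M_cc 0; linarith)
    refine ⟨α', β', e1, e2, e3, e4, ?_⟩
    intro t ht l hl hlX
    have : l = 0 := by omega
    subst this
    exact e5 t ht hlX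
  | succ k ih =>
    obtain ⟨α, β, d1, d2, d3, d4, d5⟩ := ih
    obtain ⟨α', β', e1, e2, e3, e4, e5⟩ := step (k+1) α β (rh k) d1 d2 d3 d4 (rh_anti_succ k) (grow k)
    refine ⟨α', β', d1.trans e1, e2, e3.trans d3, e4, ?_⟩
    intro t ht l hl hlX
    rcases Nat.lt_or_ge l (k+1) with h | h
    · exact d5 t ⟨e1.trans ht.1, ht.2.trans e3⟩ l (by omega) hlX
    · have : l = k + 1 := by omega
      subst this
      exact e5 t ht hlX


theorem isClosed_good (k : ℕ) : IsClosed {z : ℝ × ℝ | Good k z} := by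
  have h1 : {z : ℝ × ℝ | Good k z} = (form k) ⁻¹' (⋃ n : ℤ, Metric.closedBall (n : ℝ) (ep k)) := by
    ext z
    simp only [mem_ofPred_eq, Good, Set.mem_preimage, Set.mem_iUnion, Metric.mem_closedBall,
      Real.dist_eq]
  rw [h1]
  apply IsClosed.preimage
  · unfold form
    fun_prop
  · have : (⋃ n : ℤ, Metric.closedBall (n : ℝ) (ep k)) = {x : ℝ | |x - round x| ≤ ep k} := by
      ext x
      simp only [Set.mem_iUnion, Metric.mem_closedBall, Real.dist_eq, mem_ofPred_eq]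
      constructor
      · rintro ⟨n, hn⟩
        exact (round_le x n).trans hn
      · intro h
        exact ⟨round x, h⟩
    apply LocallyFinite.isClosed_iUnion
    · intro x
      refine ⟨Metric.ball x 1, Metric.ball_mem_nhds _ one_pos, ?_⟩
      apply Set.Finite.subset (Set.finite_Icc (⌊x - 1 - ep k⌋) (⌈x + 1 + ep k⌉))
      rintro n ⟨y, hy1, hy2⟩
      rw [Metric.mem_closedBall, Real.dist_eq, abs_le] at hy1
      rw [Metric.mem_ball, Real.dist_eq, abs_lt] at hy2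
      constructor
      · have := Int.floor_le (x - 1 - ep k)
        have h3 : (⌊x - 1 - ep k⌋ : ℝ) ≤ n := by linarith [hy1.2, hy2.1]
        exact_mod_cast h3
      · have := Int.le_ceil (x + 1 + ep k)
        have h3 : (n : ℝ) ≤ ⌈x + 1 + ep k⌉ := by linarith [hy1.1, hy2.2]
        exact_mod_cast h3
    · intro n
      exact Metric.isClosed_closedBall

theorem ext1 {x v : ℝ} (h0 : 0 ≤ x) (h1 : x ≤ 1) (ha : ¬ (0 < v ∧ x = 1)) (hb : ¬ (v < 0 ∧ x = 0)) :
    ∃ ε : ℝ, 0 < ε ∧ ∀ e, 0 ≤ e → e ≤ ε → 0 ≤ x + e * v ∧ x + e * v ≤ 1 := by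
  rcases lt_trichotomy v 0 with hv | hv | hv
  · have hx : 0 < x := lt_of_le_of_ne h0 (fun h => hb ⟨hv, h.symm⟩)
    refine ⟨x / (-v), div_pos hx (by linarith), fun e he0 he1 => ⟨?_, ?_⟩⟩
    · rw [le_div_iff₀ (by linarith)] at he1
      linarith
    · nlinarith
  · subst hv
    exact ⟨1, one_pos, fun e _ _ => by simp [h0, h1]⟩
  · have hx : x < 1 := lt_of_le_of_ne h1 (fun h => ha ⟨hv, h⟩)
    refine ⟨(1 - x) / v, div_pos (by linarith) hv, fun e he0 he1 => ⟨?_, ?_⟩⟩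
    · nlinarith
    · rw [le_div_iff₀ hv] at he1
      linarith

/-- the intersection of a line with the square: it is a segment of length (in the maximum norm) at
most one, and if the length is less than one, then it lies near a vertex -/
theorem chord {p0 u : ℝ × ℝ} (hp0 : p0 ∈ square) (h1 : |u.1| ≤ 1) (h2 : |u.2| ≤ 1)
    (hu : |u.1| = 1 ∨ |u.2| = 1) :
    ∃ t0 δ : ℝ, 0 ≤ δ ∧ δ ≤ 1 ∧
      (∀ t ∈ Set.Icc 0 δ, (p0.1 + (t0 + t) * u.1, p0.2 + (t0 + t) * u.2) ∈ square) ∧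
      (δ < 1 → ∃ a b : ℤ, ∀ t ∈ Set.Icc 0 δ, |p0.1 + (t0 + t) * u.1 - a| ≤ δ ∧
        |p0.2 + (t0 + t) * u.2 - b| ≤ δ) := by
  set S : Set ℝ := {t | (p0.1 + t * u.1, p0.2 + t * u.2) ∈ square} with hS
  have hmem : ∀ t, t ∈ S ↔ (0 ≤ p0.1 + t * u.1 ∧ p0.1 + t * u.1 ≤ 1) ∧
      (0 ≤ p0.2 + t * u.2 ∧ p0.2 + t * u.2 ≤ 1) := by
    intro t
    rw [hS, mem_ofPred_eq, mem_square]
  have hp := mem_square.1 hp0
  have h0S : (0:ℝ) ∈ S := by
    rw [hmem]; simpa using hp
  have hclosed : IsClosed S := by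
    have : S = (fun t : ℝ => p0.1 + t * u.1) ⁻¹' (Set.Icc 0 1) ∩
        (fun t : ℝ => p0.2 + t * u.2) ⁻¹' (Set.Icc 0 1) := by
      ext t
      rw [hmem]
      simp only [Set.mem_inter_iff, Set.mem_preimage, Set.mem_Icc]
    rw [this]
    exact (isClosed_Icc.preimage (by fun_prop)).inter (isClosed_Icc.preimage (by fun_prop))
  have hbdd : S ⊆ Set.Icc (-1) 1 := by
    intro t ht
    rw [hmem] at ht
    have key : |t| ≤ 1 := by
      rcases hu with h | h
      · have e : |t * u.1| ≤ 1 := by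
          rw [abs_le]; constructor <;> linarith [ht.1.1, ht.1.2, hp.1.1, hp.1.2]
        rwa [abs_mul, h, mul_one] at e
      · have e : |t * u.2| ≤ 1 := by
          rw [abs_le]; constructor <;> linarith [ht.2.1, ht.2.2, hp.2.1, hp.2.2]
        rwa [abs_mul, h, mul_one] at e
    rw [abs_le] at key
    exact key
  have hcomp : IsCompact S := isCompact_Icc.of_isClosed_subset hclosed hbdd
  obtain ⟨t0, ht0⟩ := hcomp.exists_isLeast ⟨0, h0S⟩
  obtain ⟨t1, ht1⟩ := hcomp.exists_isGreatest ⟨0, h0S⟩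
  have m0 := (hmem t0).1 ht0.1
  have m1 := (hmem t1).1 ht1.1
  have h01 : t0 ≤ t1 := ht0.2 ht1.1
  have hconv : ∀ t ∈ Set.Icc t0 t1, t ∈ S := by
    have key : ∀ x v : ℝ, (0 ≤ x + t0 * v ∧ x + t0 * v ≤ 1) → (0 ≤ x + t1 * v ∧ x + t1 * v ≤ 1) →
        ∀ t ∈ Set.Icc t0 t1, 0 ≤ x + t * v ∧ x + t * v ≤ 1 := by
      intro x v ha hb t ht
      rcases le_total 0 v with hv | hv
      · have e1 := mul_le_mul_of_nonneg_right ht.1 hv
        have e2 := mul_le_mul_of_nonneg_right ht.2 hv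
        constructor <;> linarith [ha.1, ha.2, hb.1, hb.2]
      · have e1 := mul_le_mul_of_nonpos_right ht.1 hv
        have e2 := mul_le_mul_of_nonpos_right ht.2 hv
        constructor <;> linarith [ha.1, ha.2, hb.1, hb.2]
    intro t ht
    rw [hmem]
    exact ⟨key _ _ m0.1 m1.1 t ht, key _ _ m0.2 m1.2 t ht⟩
  -- the exit at t1
  have hexit1 : (0 < u.1 ∧ p0.1 + t1 * u.1 = 1) ∨ (u.1 < 0 ∧ p0.1 + t1 * u.1 = 0) ∨
      (0 < u.2 ∧ p0.2 + t1 * u.2 = 1) ∨ (u.2 < 0 ∧ p0.2 + t1 * u.2 = 0) := by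
    by_contra hcon
    push Not at hcon
    obtain ⟨c1, c2, c3, c4⟩ := hcon
    obtain ⟨ε, hε, hεx⟩ := ext1 m1.1.1 m1.1.2 (v := u.1) (fun h => c1 h.1 h.2) (fun h => c2 h.1 h.2)
    obtain ⟨η, hη, hηy⟩ := ext1 m1.2.1 m1.2.2 (v := u.2) (fun h => c3 h.1 h.2) (fun h => c4 h.1 h.2)
    have hmin : 0 < min ε η := lt_min hε hη
    have hmS : t1 + min ε η ∈ S := by
      rw [hmem]
      have a1 := hεx (min ε η) hmin.le (min_le_left _ _)
      have a2 := hηy (min ε η) hmin.le (min_le_right _ _)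
      have e1 : p0.1 + (t1 + min ε η) * u.1 = p0.1 + t1 * u.1 + min ε η * u.1 := by ring
      have e2 : p0.2 + (t1 + min ε η) * u.2 = p0.2 + t1 * u.2 + min ε η * u.2 := by ring
      rw [e1, e2]
      exact ⟨a1, a2⟩
    have := ht1.2 hmS
    linarith
  have hexit0 : (0 < -u.1 ∧ p0.1 + t0 * u.1 = 1) ∨ (-u.1 < 0 ∧ p0.1 + t0 * u.1 = 0) ∨
      (0 < -u.2 ∧ p0.2 + t0 * u.2 = 1) ∨ (-u.2 < 0 ∧ p0.2 + t0 * u.2 = 0) := by
    by_contra hcon
    push Not at hcon
    obtain ⟨c1, c2, c3, c4⟩ := hcon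
    obtain ⟨ε, hε, hεx⟩ := ext1 m0.1.1 m0.1.2 (v := -u.1) (fun h => c1 h.1 h.2) (fun h => c2 h.1 h.2)
    obtain ⟨η, hη, hηy⟩ := ext1 m0.2.1 m0.2.2 (v := -u.2) (fun h => c3 h.1 h.2) (fun h => c4 h.1 h.2)
    have hmin : 0 < min ε η := lt_min hε hη
    have hmS : t0 - min ε η ∈ S := by
      rw [hmem]
      have a1 := hεx (min ε η) hmin.le (min_le_left _ _)
      have a2 := hηy (min ε η) hmin.le (min_le_right _ _)
      have e1 : p0.1 + (t0 - min ε η) * u.1 = p0.1 + t0 * u.1 + min ε η * -u.1 := by ring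
      have e2 : p0.2 + (t0 - min ε η) * u.2 = p0.2 + t0 * u.2 + min ε η * -u.2 := by ring
      rw [e1, e2]
      exact ⟨a1, a2⟩
    have := ht0.2 hmS
    linarith
  have hδ0 : 0 ≤ t1 - t0 := by linarith
  have hδ1 : t1 - t0 ≤ 1 := by
    rcases hu with h | h
    · have e : |(t1 - t0) * u.1| ≤ 1 := by
        rw [abs_le]; constructor <;> linarith [m0.1.1, m0.1.2, m1.1.1, m1.1.2]
      rw [abs_mul, h, mul_one] at e
      exact (le_abs_self _).trans e
    · have e : |(t1 - t0) * u.2| ≤ 1 := by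
        rw [abs_le]; constructor <;> linarith [m0.2.1, m0.2.2, m1.2.1, m1.2.2]
      rw [abs_mul, h, mul_one] at e
      exact (le_abs_self _).trans e
  refine ⟨t0, t1 - t0, hδ0, hδ1, ?_, ?_⟩
  · intro t ht
    exact hconv (t0 + t) ⟨by linarith [ht.1], by linarith [ht.2]⟩
  · intro hlt
    -- near estimates
    have near1 : ∀ v x c : ℝ, |v| ≤ 1 → x + t1 * v = c → ∀ t ∈ Set.Icc 0 (t1 - t0),
        |x + (t0 + t) * v - c| ≤ t1 - t0 := by
      intro v x c hv hc t ht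
      have e : x + (t0 + t) * v - c = -((t1 - t0 - t) * v) := by rw [← hc]; ring
      rw [e, abs_neg, abs_mul, abs_of_nonneg (by linarith [ht.2])]
      have := mul_le_mul_of_nonneg_left hv (by linarith [ht.2] : 0 ≤ t1 - t0 - t)
      linarith [ht.1]
    have near0 : ∀ v x c : ℝ, |v| ≤ 1 → x + t0 * v = c → ∀ t ∈ Set.Icc 0 (t1 - t0),
        |x + (t0 + t) * v - c| ≤ t1 - t0 := by
      intro v x c hv hc t ht
      have e : x + (t0 + t) * v - c = t * v := by rw [← hc]; ring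
      rw [e, abs_mul, abs_of_nonneg ht.1]
      have := mul_le_mul_of_nonneg_left hv ht.1
      linarith [ht.2]
    -- in each coordinate at most one of the exits
    have noboth : ∀ v x : ℝ, |v| ≤ 1 → (0 < v ∧ x + t1 * v = 1 ∧ x + t0 * v = 0) ∨
        (v < 0 ∧ x + t1 * v = 0 ∧ x + t0 * v = 1) → False := by
      intro v x hv h
      rw [abs_le] at hv
      rcases h with ⟨_, e1, e2⟩ | ⟨_, e1, e2⟩
      · have : (t1 - t0) * v = 1 := by linarith
        nlinarith
      · have : (t1 - t0) * v = -1 := by linarith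
        nlinarith
    rcases hexit1 with ⟨s1, r1⟩ | ⟨s1, r1⟩ | ⟨s1, r1⟩ | ⟨s1, r1⟩ <;>
    rcases hexit0 with ⟨s0, r0⟩ | ⟨s0, r0⟩ | ⟨s0, r0⟩ | ⟨s0, r0⟩
    · linarith
    · exact (noboth u.1 p0.1 h1 (Or.inl ⟨s1, r1, r0⟩)).elim
    · exact ⟨1, 1, fun t ht => ⟨by simpa using near1 _ _ _ h1 r1 t ht, by simpa using near0 _ _ _ h2 r0 t ht⟩⟩
    · exact ⟨1, 0, fun t ht => ⟨by simpa using near1 _ _ _ h1 r1 t ht, by simpa using near0 _ _ _ h2 r0 t ht⟩⟩
    · exact (noboth u.1 p0.1 h1 (Or.inr ⟨s1, r1, r0⟩)).elim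
    · linarith
    · exact ⟨0, 1, fun t ht => ⟨by simpa using near1 _ _ _ h1 r1 t ht, by simpa using near0 _ _ _ h2 r0 t ht⟩⟩
    · exact ⟨0, 0, fun t ht => ⟨by simpa using near1 _ _ _ h1 r1 t ht, by simpa using near0 _ _ _ h2 r0 t ht⟩⟩
    · exact ⟨1, 1, fun t ht => ⟨by simpa using near0 _ _ _ h1 r0 t ht, by simpa using near1 _ _ _ h2 r1 t ht⟩⟩
    · exact ⟨0, 1, fun t ht => ⟨by simpa using near0 _ _ _ h1 r0 t ht, by simpa using near1 _ _ _ h2 r1 t ht⟩⟩
    · linarith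
    · exact (noboth u.2 p0.2 h2 (Or.inl ⟨s1, r1, r0⟩)).elim
    · exact ⟨1, 0, fun t ht => ⟨by simpa using near0 _ _ _ h1 r0 t ht, by simpa using near1 _ _ _ h2 r1 t ht⟩⟩
    · exact ⟨0, 0, fun t ht => ⟨by simpa using near0 _ _ _ h1 r0 t ht, by simpa using near1 _ _ _ h2 r1 t ht⟩⟩
    · exact (noboth u.2 p0.2 h2 (Or.inr ⟨s1, r1, r0⟩)).elim
    · linarith


theorem sqrt_of_block {s k : ℕ} (hk : k ∈ Finset.Ico (s ^ 2) ((s + 1) ^ 2)) : Nat.sqrt k = s := by
  rw [Finset.mem_Ico] at hk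
  exact (Nat.eq_sqrt'.2 hk).symm

theorem KK_meets {p0 u : ℝ × ℝ} (hp0 : p0 ∈ square) (h1 : |u.1| ≤ 1) (h2 : |u.2| ≤ 1)
    (hu : |u.1| = 1 ∨ |u.2| = 1) : ∃ t : ℝ, (p0.1 + t * u.1, p0.2 + t * u.2) ∈ KK := by
  obtain ⟨t0, δ, hδ0, hδ1, hsq, hv⟩ := chord hp0 h1 h2 hu
  set p : ℝ × ℝ := (p0.1 + t0 * u.1, p0.2 + t0 * u.2) with hp
  have hpt : ∀ t, (p.1 + t * u.1, p.2 + t * u.2) = (p0.1 + (t0 + t) * u.1, p0.2 + (t0 + t) * u.2) := by
    intro t
    simp only [hp]
    ext <;> ring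
  set X : Set ℕ := {k | |u.1 + (dj k : ℝ) * u.2| < cc k} ∪
    {k | rh k < δ ∧ δ < 1 / ((M k : ℝ) * cc k)} with hX
  have hA : ∀ k, k ∉ X → δ < 1 / ((M k : ℝ) * cc k) →
      ∀ t ∈ Set.Icc 0 δ, Good k (p.1 + t * u.1, p.2 + t * u.2) := by
    intro k hk hlt t ht
    rw [hX, Set.mem_union, not_or] at hk
    have hr : δ ≤ rh k := by
      by_contra hcon
      push Not at hcon
      exact hk.2 ⟨hcon, hlt⟩
    have hδlt : δ < 1 := lt_of_le_of_lt hr (rh_lt_one k)
    obtain ⟨a, b, hab⟩ := hv hδlt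
    have := hab t ht
    rw [hpt]
    exact good_near_vertex (this.1.trans hr) (this.2.trans hr)
  have hB : ∀ k, k ∉ X → 1 / ((M k : ℝ) * cc k) ≤ δ → cc k ≤ |u.1 + (dj k : ℝ) * u.2| := by
    intro k hk _
    rw [hX, Set.mem_union, not_or] at hk
    have := hk.1
    rw [mem_ofPred_eq] at this
    push Not at this
    exact this
  -- the nested compact sets
  set Fk : ℕ → Set ℝ := fun k => {t | t ∈ Set.Icc 0 δ ∧ ∀ l ≤ k, l ∉ X → Good l (p.1 + t * u.1, p.2 + t * u.2)} with hFk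
  have hclosed : ∀ k, IsClosed (Fk k) := by
    intro k
    have : Fk k = Set.Icc 0 δ ∩ ⋂ l : ℕ, ⋂ (_ : l ≤ k), ⋂ (_ : l ∉ X),
        (fun t : ℝ => (p.1 + t * u.1, p.2 + t * u.2)) ⁻¹' {z | Good l z} := by
      ext t
      simp only [hFk, mem_ofPred_eq, Set.mem_inter_iff, Set.mem_iInter, Set.mem_preimage]
    rw [this]
    refine isClosed_Icc.inter ?_
    refine isClosed_iInter fun l => isClosed_iInter fun _ => isClosed_iInter fun _ => ?_
    exact (isClosed_good l).preimage (by fun_prop)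
  have hne : ∀ k, (Fk k).Nonempty := by
    intro k
    obtain ⟨α, β, e1, e2, e3, e4, e5⟩ := nest hδ0 hδ1 h1 h2 X hA hB k
    exact ⟨α, ⟨e1, e2.trans e3⟩, e5 α ⟨le_refl _, e2⟩⟩
  have hanti : ∀ k, Fk (k+1) ⊆ Fk k := by
    intro k t ht
    exact ⟨ht.1, fun l hl hlX => ht.2 l (by omega) hlX⟩
  have hcomp : IsCompact (Fk 0) := isCompact_Icc.of_isClosed_subset (hclosed 0) (fun t ht => ht.1)
  obtain ⟨t, ht⟩ := IsCompact.nonempty_iInter_of_sequence_nonempty_isCompact_isClosed Fk hanti hne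
    hcomp hclosed
  rw [Set.mem_iInter] at ht
  refine ⟨t0 + t, ?_⟩
  rw [← hpt]
  have hgood : ∀ k, k ∉ X → Good k (p.1 + t * u.1, p.2 + t * u.2) := fun k hk =>
    (ht k).2 k le_rfl hk
  refine ⟨by rw [hpt]; exact hsq t (ht 0).1, ?_⟩
  intro s
  -- the exceptional scales
  have hbad : ∃ a : ℕ, ∀ k ∈ Finset.Ico (s ^ 2) ((s + 1) ^ 2), k ≠ a →
      ¬ |u.1 + (dj k : ℝ) * u.2| < cc k := by
    by_cases hex : ∃ a ∈ Finset.Ico (s ^ 2) ((s + 1) ^ 2), |u.1 + (dj a : ℝ) * u.2| < cc a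
    · obtain ⟨a, ha, ha'⟩ := hex
      refine ⟨a, fun k hk hka hk' => ?_⟩
      have sa := sqrt_of_block ha
      have sk := sqrt_of_block hk
      have hda : dj a = a - s ^ 2 := by unfold dj; rw [sa]
      have hdk : dj k = k - s ^ 2 := by unfold dj; rw [sk]
      rw [Finset.mem_Ico] at ha hk
      have hne' : dj a ≠ dj k := by
        rw [hda, hdk]; omega
      have hone : (1:ℝ) ≤ |(dj a : ℝ) - dj k| := by
        have h3 : (dj a : ℤ) - dj k ≠ 0 := by
          intro h; apply hne'; omega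
        have h4 : (1:ℤ) ≤ |(dj a : ℤ) - dj k| := Int.one_le_abs h3
        exact_mod_cast h4
      have hcc : cc a = cc k := by unfold cc; rw [sa, sk]
      rw [hcc] at ha'
      have hccv : cc k = 1 / (4 * (s:ℝ) + 2) := by unfold cc; rw [sk]
      have e1 : |((dj a : ℝ) - dj k) * u.2| < 2 * cc k := by
        have : ((dj a : ℝ) - dj k) * u.2 = (u.1 + (dj a : ℝ) * u.2) - (u.1 + (dj k : ℝ) * u.2) := by ring
        rw [this]
        calc _ ≤ |u.1 + (dj a : ℝ) * u.2| + |u.1 + (dj k : ℝ) * u.2| := abs_sub _ _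
          _ < _ := by linarith
      have e2 : |u.2| < 2 * cc k := by
        rw [abs_mul] at e1
        have := mul_le_mul_of_nonneg_right hone (abs_nonneg u.2)
        linarith
      have hs0 : (0:ℝ) ≤ s := Nat.cast_nonneg s
      have hcc1 : 2 * cc k ≤ 1 := by
        rw [hccv, mul_one_div, div_le_one (by positivity)]
        linarith
      have hdkl : (dj k : ℝ) ≤ 2 * (s:ℝ) := by
        have := dj_leR k
        rwa [sk] at this
      have hdk0 : (0:ℝ) ≤ dj k := Nat.cast_nonneg _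
      have e3 : |u.1| < 1 := by
        have e4 : |u.1| ≤ |u.1 + (dj k : ℝ) * u.2| + |(dj k : ℝ) * u.2| := by
          have : u.1 = (u.1 + (dj k : ℝ) * u.2) - (dj k : ℝ) * u.2 := by ring
          calc |u.1| = |(u.1 + (dj k : ℝ) * u.2) - (dj k : ℝ) * u.2| := by rw [← this]
            _ ≤ _ := abs_sub _ _
        have e5 : |(dj k : ℝ) * u.2| ≤ 2 * (s:ℝ) * (2 * cc k) := by
          rw [abs_mul, abs_of_nonneg hdk0]
          gcongr
        have e6 : cc k + 2 * (s:ℝ) * (2 * cc k) ≤ 1 := by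
          have : cc k + 2 * (s:ℝ) * (2 * cc k) = (1 + 4 * s) * cc k := by ring
          rw [this, hccv, mul_one_div, div_le_one (by positivity)]
          linarith
        linarith
      rcases hu with h | h
      · linarith
      · linarith
    · push Not at hex
      exact ⟨0, fun k hk _ => not_lt.2 (hex k hk)⟩
  have hint : ∃ b : ℕ, ∀ k, k ≠ b → ¬ (rh k < δ ∧ δ < 1 / ((M k : ℝ) * cc k)) := by
    by_cases hex : ∃ b, rh b < δ ∧ δ < 1 / ((M b : ℝ) * cc b)
    · obtain ⟨b, hb⟩ := hex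
      have key : ∀ k l, k < l → rh k < δ → δ < 1 / ((M l : ℝ) * cc l) → False := by
        intro k l hkl hk hl
        obtain ⟨m, rfl⟩ : ∃ m, l = m + 1 := ⟨l - 1, by omega⟩
        have e1 := rh_anti (show k ≤ m by omega)
        have e2 := grow m
        have hpos : (0:ℝ) < (M (m+1) : ℝ) * cc (m+1) := by
          have := M_posR (m+1)
          have := cc_pos (m+1)
          positivity
        have e3 : 1 / ((M (m+1) : ℝ) * cc (m+1)) ≤ rh m := by
          rw [div_le_iff₀ hpos]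
          linarith
        linarith
      refine ⟨b, fun k hk hk' => ?_⟩
      rcases Nat.lt_or_ge k b with h | h
      · exact key k b h hk'.1 hb.2
      · exact key b k (by omega) hb.1 hk'.2
    · push Not at hex
      exact ⟨0, fun k _ h => absurd h.2 (not_lt.2 (hex k h.1))⟩
  obtain ⟨a, ha⟩ := hbad
  obtain ⟨b, hb⟩ := hint
  refine ⟨a, b, fun k hk hka hkb => hgood k ?_⟩
  rw [hX, Set.mem_union, not_or]
  exact ⟨ha k hk hka, hb k hkb⟩

theorem isClosed_KK : IsClosed KK := by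
  classical
  have : KK = square ∩ ⋂ s : ℕ, ⋃ S ∈ {S ∈ (Finset.Ico (s ^ 2) ((s + 1) ^ 2)).powerset |
      ∃ a b : ℕ, ∀ k ∈ Finset.Ico (s ^ 2) ((s + 1) ^ 2), k ≠ a → k ≠ b → k ∈ S}, ⋂ k ∈ S, {z | Good k z} := by
    ext z
    simp only [KK, mem_ofPred_eq, Set.mem_inter_iff, Set.mem_iInter, Set.mem_iUnion,
      Finset.mem_filter, Finset.mem_powerset, exists_prop]
    constructor
    · rintro ⟨h1, h2⟩
      refine ⟨h1, fun s => ?_⟩
      obtain ⟨a, b, hab⟩ := h2 s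
      refine ⟨{k ∈ Finset.Ico (s ^ 2) ((s + 1) ^ 2) | k ≠ a ∧ k ≠ b}, ⟨Finset.filter_subset _ _,
        a, b, fun k hk h1 h2 => Finset.mem_filter.2 ⟨hk, h1, h2⟩⟩, fun k hk => ?_⟩
      rw [Finset.mem_filter] at hk
      exact hab k hk.1 hk.2.1 hk.2.2
    · rintro ⟨h1, h2⟩
      refine ⟨h1, fun s => ?_⟩
      obtain ⟨S, ⟨hS, a, b, hab⟩, hz⟩ := h2 s
      exact ⟨a, b, fun k hk h3 h4 => hz k (hab k hk h3 h4)⟩
  rw [this]
  refine IsClosed.inter ?_ (isClosed_iInter fun s => ?_)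
  · exact isClosed_Icc.prod isClosed_Icc
  · refine Set.Finite.isClosed_biUnion (Finset.finite_toSet _) fun S _ => ?_
    refine isClosed_biInter fun k _ => isClosed_good k

theorem isCompact_KK : IsCompact KK :=
  (isCompact_Icc.prod isCompact_Icc).of_isClosed_subset isClosed_KK (fun _ hz => hz.1)


theorem isCompact_sumset (ℓ : ℕ) : IsCompact (sumset ℓ KK) := by
  have : sumset ℓ KK = (fun x : Fin ℓ → ℝ × ℝ => ∑ i, x i) '' (Set.pi Set.univ fun _ => KK) := by
    ext w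
    simp only [sumset, mem_ofPred_eq, Set.mem_image, Set.mem_pi, Set.mem_univ, true_imp_iff]
    constructor
    · rintro ⟨x, hx, rfl⟩
      exact ⟨x, hx, rfl⟩
    · rintro ⟨x, hx, rfl⟩
      exact ⟨x, hx, rfl⟩
  rw [this]
  exact (isCompact_univ_pi fun _ => isCompact_KK).image (by fun_prop)

theorem form_sum {ℓ : ℕ} (k : ℕ) (x : Fin ℓ → ℝ × ℝ) : form k (∑ i, x i) = ∑ i, form k (x i) := by
  unfold form
  rw [Prod.fst_sum, Prod.snd_sum, Finset.mul_sum, ← Finset.sum_add_distrib, Finset.mul_sum]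

theorem M_succ_ge (k : ℕ) : 24 * (M k : ℝ) ≤ M (k+1) := by
  rw [M]
  push_cast
  have h2 := M_posR k
  have h3 : (0:ℝ) ≤ k := Nat.cast_nonneg k
  calc 24 * (M k : ℝ) = 6 * 1 * 4 * M k := by ring
    _ ≤ (4 * (k:ℝ) + 6) * (2 * k + 1) * (4 * k + 4) * M k := by
      gcongr <;> linarith

theorem M_ge (k : ℕ) : (k : ℝ) ≤ M k := by
  induction k with
  | zero => simp
  | succ k ih =>
    have := M_succ_ge k
    have := M_posR k
    push_cast
    linarith

/-- on any interval of positive length there is a point at which, in a given late stage, all of the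
linear forms are far from the integers -/
theorem far {s : ℕ} {r : ℝ} (κ : ℕ → ℝ) (hr : 1 ≤ (M (s ^ 2) : ℝ) * r) (i : ℕ) :
    ∃ α β : ℝ, 0 ≤ α ∧ α ≤ β ∧ β ≤ r ∧ 1 / (4 * (M (s ^ 2 + i) : ℝ)) ≤ β - α ∧
      ∀ t ∈ Set.Icc α β, ∀ l ≤ i, ∀ n : ℤ, 1 / 4 ≤ |(M (s ^ 2 + l) : ℝ) * t + κ (s ^ 2 + l) - n| := by
  have step : ∀ (k : ℕ) (α β : ℝ), α ≤ β → 1 ≤ (M k : ℝ) * (β - α) →
      ∃ α' β' : ℝ, α ≤ α' ∧ α' ≤ β' ∧ β' ≤ β ∧ 1 / (4 * (M k : ℝ)) ≤ β' - α' ∧
        ∀ t ∈ Set.Icc α' β', ∀ n : ℤ, 1 / 4 ≤ |(M k : ℝ) * t + κ k - n| := by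
    intro k α β hαβ hM
    have hMp := M_posR k
    have hMpos : (0:ℝ) < M k := by linarith
    obtain ⟨t, ht, n, hn⟩ := hit (lam := (M k : ℝ)) (kap := κ k) (1/2) hαβ (by rwa [abs_of_pos hMpos])
    have hle : 1 / (4 * (M k : ℝ)) ≤ β - α := by
      rw [div_le_iff₀ (by positivity)]
      linarith
    obtain ⟨α', β', e1, e2, e3, e4, e5⟩ := subint ht (by positivity) hle
    refine ⟨α', β', e1, e3, e2, e4.ge, ?_⟩
    intro t' ht' m
    have e6 : |(M k : ℝ) * t' + κ k - (n + 1/2)| ≤ 1 / 4 := by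
      rw [← hn]
      have : (M k : ℝ) * t' + κ k - ((M k : ℝ) * t + κ k) = (M k : ℝ) * (t' - t) := by ring
      rw [this, abs_mul, abs_of_pos hMpos]
      have htt : |t' - t| ≤ 1 / (4 * (M k : ℝ)) := by
        rw [abs_le]; constructor <;> linarith [ht'.1, ht'.2, e5.1, e5.2]
      calc (M k : ℝ) * |t' - t| ≤ (M k : ℝ) * (1 / (4 * (M k : ℝ))) := by gcongr
        _ = 1 / 4 := by field_simp
    have e7 : (1:ℝ) / 2 ≤ |(n:ℝ) + 1/2 - m| := by
      rcases le_or_gt m n with h | h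
      · have : (m:ℝ) ≤ n := by exact_mod_cast h
        rw [le_abs]; left; linarith
      · have : (n:ℝ) + 1 ≤ m := by exact_mod_cast h
        rw [le_abs]; right; linarith
    have e8 : |(n:ℝ) + 1/2 - m| ≤ |(M k : ℝ) * t' + κ k - m| + |(M k : ℝ) * t' + κ k - (n + 1/2)| := by
      have : (n:ℝ) + 1/2 - m = ((M k : ℝ) * t' + κ k - m) - ((M k : ℝ) * t' + κ k - (n + 1/2)) := by ring
      rw [this]
      exact abs_sub _ _
    linarith
  induction i with
  | zero =>
    have hr0 : 0 ≤ r := by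
      have := M_posR (s ^ 2)
      by_contra hcon
      push Not at hcon
      nlinarith
    obtain ⟨α', β', e1, e2, e3, e4, e5⟩ := step (s ^ 2) 0 r hr0 (by rwa [sub_zero])
    refine ⟨α', β', e1, e2, e3, e4, ?_⟩
    intro t ht l hl n
    have : l = 0 := by omega
    subst this
    exact e5 t ht n
  | succ i ih =>
    obtain ⟨α, β, d1, d2, d3, d4, d5⟩ := ih
    have hM : 1 ≤ (M (s ^ 2 + (i + 1)) : ℝ) * (β - α) := by
      have e := M_succ_ge (s ^ 2 + i)
      have hMp := M_posR (s ^ 2 + i)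
      rw [div_le_iff₀ (by positivity)] at d4
      have h0 : 0 ≤ β - α := by linarith
      have := mul_le_mul_of_nonneg_right e h0
      rw [show s ^ 2 + (i + 1) = s ^ 2 + i + 1 by ring]
      nlinarith
    obtain ⟨α', β', e1, e2, e3, e4, e5⟩ := step (s ^ 2 + (i+1)) α β d2 hM
    refine ⟨α', β', d1.trans e1, e2, e3.trans d3, e4, ?_⟩
    intro t ht l hl n
    rcases Nat.lt_or_ge l (i+1) with h | h
    · exact d5 t ⟨e1.trans ht.1, ht.2.trans e3⟩ l (by omega) n
    · have : l = i + 1 := by omega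
      subst this
      exact e5 t ht n

theorem interior_sumset (ℓ : ℕ) : interior (sumset ℓ KK) = ∅ := by
  classical
  rw [Set.eq_empty_iff_forall_notMem]
  intro w0 hw0
  rw [mem_interior_iff_mem_nhds, Metric.mem_nhds_iff] at hw0
  obtain ⟨ρ, hρ, hball⟩ := hw0
  -- the stage
  obtain ⟨N, hN⟩ := exists_nat_gt (2 / ρ)
  set s : ℕ := ℓ + N with hs
  have hr : 1 ≤ (M (s ^ 2) : ℝ) * (ρ / 2) := by
    have e1 := M_ge (s ^ 2)
    have e2 : (N : ℝ) ≤ (s ^ 2 : ℕ) := by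
      have : N ≤ s ^ 2 := by
        have h1 : N ≤ s := by omega
        calc N ≤ s := h1
          _ ≤ s ^ 2 := Nat.le_self_pow (by norm_num) s
      exact_mod_cast this
    have e3 : 2 / ρ < M (s ^ 2) := by linarith
    rw [div_lt_iff₀ hρ] at e3
    linarith
  obtain ⟨α, β, e1, e2, e3, -, e5⟩ := far (fun k => form k w0) hr (2 * s)
  -- the point
  have hmem : (w0.1 + α, w0.2) ∈ sumset ℓ KK := by
    apply hball
    rw [Metric.mem_ball, Prod.dist_eq, max_lt_iff]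
    simp only [dist_self]
    refine ⟨?_, hρ⟩
    rw [Real.dist_eq, add_sub_cancel_left, abs_of_nonneg e1]
    linarith
  obtain ⟨x, hx, hxw⟩ := hmem
  choose a b hab using fun i => (hx i).2 s
  -- a scale which is good for all of the `x i`
  have hcard : (Finset.univ.image a ∪ Finset.univ.image b).card < (Finset.Ico (s ^ 2) ((s + 1) ^ 2)).card := by
    have h1 : (Finset.univ.image a ∪ Finset.univ.image b).card ≤ ℓ + ℓ := by
      refine (Finset.card_union_le _ _).trans ?_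
      have := Finset.card_image_le (s := (Finset.univ : Finset (Fin ℓ))) (f := a)
      have := Finset.card_image_le (s := (Finset.univ : Finset (Fin ℓ))) (f := b)
      simp only [Finset.card_univ, Fintype.card_fin] at *
      omega
    rw [Nat.card_Ico]
    have h2 : (s + 1) ^ 2 - s ^ 2 = 2 * s + 1 := by
      have : (s + 1) ^ 2 = s ^ 2 + (2 * s + 1) := by ring
      omega
    omega
  obtain ⟨k, hk, hk'⟩ := Finset.exists_mem_notMem_of_card_lt_card hcard
  simp only [Finset.mem_union, Finset.mem_image, Finset.mem_univ, true_and, not_or, not_exists] at hk'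
  have hgood : ∀ i, Good k (x i) := fun i => hab i k hk (fun h => hk'.1 i h.symm) (fun h => hk'.2 i h.symm)
  choose n hn using hgood
  have hsk := sqrt_of_block hk
  have hep : ep k = 1 / (4 * ((s:ℝ) + 1)) := by unfold ep; rw [hsk]
  have h1 : |form k (w0.1 + α, w0.2) - ((∑ i, n i : ℤ) : ℝ)| ≤ ℓ * ep k := by
    rw [hxw, form_sum]
    push_cast
    rw [← Finset.sum_sub_distrib]
    calc _ ≤ ∑ i, |form k (x i) - n i| := Finset.abs_sum_le_sum_abs _ _
      _ ≤ ∑ _i : Fin ℓ, ep k := Finset.sum_le_sum fun i _ => hn i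
      _ = ℓ * ep k := by simp
  have h2 : (ℓ : ℝ) * ep k < 1 / 4 := by
    rw [hep, mul_one_div, div_lt_div_iff₀ (by positivity) (by norm_num)]
    have : (ℓ : ℝ) ≤ s := by exact_mod_cast (show ℓ ≤ s by omega)
    linarith
  rw [Finset.mem_Ico] at hk
  obtain ⟨l, rfl⟩ : ∃ l, k = s ^ 2 + l := ⟨k - s ^ 2, by omega⟩
  have hl : l ≤ 2 * s := by
    have : (s + 1) ^ 2 = s ^ 2 + (2 * s + 1) := by ring
    omega
  have h3 := e5 α ⟨le_refl _, e2⟩ l hl (∑ i, n i)
  have h4 : form (s ^ 2 + l) (w0.1 + α, w0.2) = (M (s ^ 2 + l) : ℝ) * α + form (s ^ 2 + l) w0 := by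
    unfold form
    ring
  rw [h4] at h1
  linarith

/-- **A compact set that meets every line and has nowhere dense iterated sumsets.** There is a compact
set `K ⊆ [0,1]²` that meets every line meeting `[0,1]²`, and the `ℓ`-fold sumset of which is nowhere
dense for every `ℓ ≥ 1`. -/
theorem result : ∃ K : Set (ℝ × ℝ), IsCompact K ∧ K ⊆ Set.Icc 0 1 ×ˢ Set.Icc 0 1 ∧
    (∀ a b c : ℝ, (a ≠ 0 ∨ b ≠ 0) →
      (∃ p ∈ (Set.Icc 0 1 ×ˢ Set.Icc 0 1 : Set (ℝ × ℝ)), a * p.1 + b * p.2 = c) →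
      ∃ p ∈ K, a * p.1 + b * p.2 = c) ∧
    ∀ ℓ : ℕ, 1 ≤ ℓ →
      IsNowhereDense {w : ℝ × ℝ | ∃ x : Fin ℓ → ℝ × ℝ, (∀ i, x i ∈ K) ∧ w = ∑ i, x i} := by
  refine ⟨KK, isCompact_KK, fun z hz => hz.1, ?_, ?_⟩
  · rintro a b c hab ⟨p, hp, hpc⟩
    set m : ℝ := max |a| |b| with hm
    have hmpos : 0 < m := by
      rcases hab with h | h
      · exact lt_of_lt_of_le (abs_pos.2 h) (le_max_left _ _)
      · exact lt_of_lt_of_le (abs_pos.2 h) (le_max_right _ _)
    have h1 : |(-b / m)| ≤ 1 := by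
      rw [abs_div, abs_neg, abs_of_pos hmpos, div_le_one hmpos]
      exact le_max_right _ _
    have h2 : |(a / m)| ≤ 1 := by
      rw [abs_div, abs_of_pos hmpos, div_le_one hmpos]
      exact le_max_left _ _
    have h3 : |(-b / m)| = 1 ∨ |(a / m)| = 1 := by
      rcases max_choice |a| |b| with h | h
      · right
        rw [abs_div, abs_of_pos hmpos, div_eq_one_iff_eq hmpos.ne', hm, h]
      · left
        rw [abs_div, abs_neg, abs_of_pos hmpos, div_eq_one_iff_eq hmpos.ne', hm, h]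
    obtain ⟨t, ht⟩ := KK_meets (p0 := p) (u := (-b / m, a / m)) hp h1 h2 h3
    refine ⟨_, ht, ?_⟩
    simp only
    rw [← hpc]
    field_simp
    ring
  · intro ℓ _
    have : IsClosed (sumset ℓ KK) := (isCompact_sumset ℓ).isClosed
    change IsNowhereDense (sumset ℓ KK)
    rw [this.isNowhereDense_iff]
    exact interior_sumset ℓ

end Pool.Agent.Results.MP_ca1982_an.AllSumsetsNowhereDense
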